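import Pool.Agent.U503.HP.Stm

/-!
# Project HP, package ALG: products of commutators in a group with commuting translates
-/

set_option autoImplicit false

open scoped commutatorElement

namespace Pool.Agent.U293.HP

section basic

variable {G : Type} [Group G]

/-- ordered products -/
def op : ℕ → (ℕ → G) → G
  | 0, _ => 1
  | n + 1, x => op n x * x n

theorem op_succ (n : ℕ) (x : ℕ → G) : op (n + 1) x = op n x * x n := rfl

theorem op_succ' (n : ℕ) (x : ℕ → G) : op (n + 1) x = x 0 * op n (fun i => x (i + 1)) := by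
  induction n with
  | zero => simp [op]
  | succ n ih => rw [op_succ, ih, mul_assoc, op_succ]

theorem op_congr (n : ℕ) {x y : ℕ → G} (h : ∀ i < n, x i = y i) : op n x = op n y := by
  induction n with
  | zero => rfl
  | succ n ih => rw [op_succ, op_succ, ih fun i hi => h i (by omega), h n (by omega)]

theorem op_one (n : ℕ) : op n (fun _ => (1 : G)) = 1 := by
  induction n with
  | zero => rfl
  | succ n ih => rw [op_succ, ih, one_mul]

theorem op_mem (H : Subgroup G) (n : ℕ) {x : ℕ → G} (h : ∀ i < n, x i ∈ H) : op n x ∈ H := by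
  induction n with
  | zero => exact H.one_mem
  | succ n ih => exact H.mul_mem (ih fun i hi => h i (by omega)) (h n (by omega))

theorem op_add (m n : ℕ) (x : ℕ → G) : op (m + n) x = op m x * op n (fun i => x (m + i)) := by
  induction n with
  | zero => simp [op]
  | succ n ih => rw [← add_assoc, op_succ, ih, op_succ, mul_assoc]

theorem op_block (m n : ℕ) (x : ℕ → G) :
    op (m * n) x = op m (fun i => op n (fun t => x (i * n + t))) := by
  induction m with
  | zero => simp [op]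
  | succ m ih => rw [Nat.add_mul, one_mul, op_add, ih, op_succ]

theorem op_ofFn (n : ℕ) (x : ℕ → G) : op n x = (List.ofFn fun t : Fin n => x t).prod := by
  induction n generalizing x with
  | zero => simp [op]
  | succ n ih =>
    rw [op_succ', ih, List.ofFn_succ, List.prod_cons]
    rfl

theorem op_list {α : Type} (c : α → G) (d : α) (hd : c d = 1) (l : List α) :
    ∀ n : ℕ, l.length ≤ n → op n (fun t => c (l.getD t d)) = (l.map c).prod := by
  induction l with
  | nil =>
    intro n _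
    simp only [List.getD_nil, hd, List.map_nil, List.prod_nil]
    exact op_one n
  | cons x l ih =>
    intro n hn
    rw [List.length_cons] at hn
    obtain ⟨m, rfl⟩ : ∃ m, n = m + 1 := ⟨n - 1, by omega⟩
    rw [op_succ']
    simp only [List.getD_cons_zero, List.getD_cons_succ, List.map_cons, List.prod_cons]
    rw [ih m (by omega)]

/-- products of translates -/
def pr (g : G) (u : ℕ → G) (m : ℕ) : G := op m (fun i => g ^ i * u i * (g ^ i)⁻¹)

theorem pr_succ (g : G) (u : ℕ → G) (m : ℕ) :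
    pr g u (m + 1) = pr g u m * (g ^ m * u m * (g ^ m)⁻¹) := rfl

theorem pr_shift (g : G) (u : ℕ → G) (m : ℕ) :
    pr g u (m + 1) = u 0 * (g * pr g (fun i => u (i + 1)) m * g⁻¹) := by
  induction m with
  | zero => simp [pr, op]
  | succ m ih =>
    rw [pr_succ, ih, pr_succ]
    have h1 : g ^ (m + 1) = g * g ^ m := pow_succ' g m
    rw [h1]
    group

section comm

variable {g : G} {L : ℕ} {K : Subgroup G}
  (hC : ∀ i < L, ∀ j < L, i ≠ j → ∀ a ∈ K, ∀ b ∈ K,
    Commute (g ^ i * a * (g ^ i)⁻¹) (g ^ j * b * (g ^ j)⁻¹))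

include hC

theorem pr_commute {v : ℕ → G} (hv : ∀ i, v i ∈ K) {a : G} (ha : a ∈ K) {j : ℕ} (hj : j < L) :
    ∀ m ≤ j, Commute (pr g v m) (g ^ j * a * (g ^ j)⁻¹) := by
  intro m
  induction m with
  | zero => intro _; exact Commute.one_left _
  | succ m ih =>
    intro hm
    rw [pr_succ]
    exact (ih (by omega)).mul_left (hC m (by omega) j hj (by omega) _ (hv m) _ ha)

theorem pr_mul {u v : ℕ → G} (hu : ∀ i, u i ∈ K) (hv : ∀ i, v i ∈ K) :
    ∀ m ≤ L, pr g (fun i => u i * v i) m = pr g u m * pr g v m := by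
  intro m
  induction m with
  | zero => intro _; simp [pr, op]
  | succ m ih =>
    intro hm
    have h1 := (pr_commute hC hv (hu m) (by omega : m < L) m le_rfl).eq
    rw [pr_succ, pr_succ, pr_succ, ih (by omega)]
    have h2 : g ^ m * (u m * v m) * (g ^ m)⁻¹ =
        (g ^ m * u m * (g ^ m)⁻¹) * (g ^ m * v m * (g ^ m)⁻¹) := by group
    rw [h2]
    calc pr g u m * pr g v m * (g ^ m * u m * (g ^ m)⁻¹ * (g ^ m * v m * (g ^ m)⁻¹))
        = pr g u m * (pr g v m * (g ^ m * u m * (g ^ m)⁻¹)) * (g ^ m * v m * (g ^ m)⁻¹) := by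
          simp only [mul_assoc]
      _ = pr g u m * ((g ^ m * u m * (g ^ m)⁻¹) * pr g v m) * (g ^ m * v m * (g ^ m)⁻¹) := by
          rw [h1]
      _ = _ := by simp only [mul_assoc]

omit hC in
theorem pr_one (g : G) (m : ℕ) : pr g (fun _ => 1) m = 1 := by
  unfold pr
  simp only [mul_one, mul_inv_cancel]
  exact op_one m

theorem pr_inv {u : ℕ → G} (hu : ∀ i, u i ∈ K) : pr g (fun i => (u i)⁻¹) L = (pr g u L)⁻¹ := by
  have h1 := pr_mul hC hu (fun i => K.inv_mem (hu i)) L le_rfl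
  simp only [mul_inv_cancel] at h1
  rw [pr_one] at h1
  exact (inv_eq_of_mul_eq_one_right h1.symm).symm

theorem pr_comm {u v : ℕ → G} (hu : ∀ i, u i ∈ K) (hv : ∀ i, v i ∈ K) :
    pr g (fun i => ⁅u i, v i⁆) L = ⁅pr g u L, pr g v L⁆ := by
  simp only [commutatorElement_def]
  rw [pr_mul hC (fun i => K.mul_mem (K.mul_mem (hu i) (hv i)) (K.inv_mem (hu i)))
    (fun i => K.inv_mem (hv i)) L le_rfl,
    pr_mul hC (fun i => K.mul_mem (hu i) (hv i)) (fun i => K.inv_mem (hu i)) L le_rfl,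
    pr_mul hC hu hv L le_rfl, pr_inv hC hu, pr_inv hC hv]

theorem pr_op {x : ℕ → ℕ → G} (hx : ∀ i t, x i t ∈ K) (N : ℕ) :
    pr g (fun i => op N (x i)) L = op N (fun t => pr g (fun i => x i t) L) := by
  induction N with
  | zero => exact pr_one g L
  | succ N ih =>
    simp only [op_succ]
    rw [pr_mul hC (fun i => op_mem K N fun t _ => hx i t) (fun i => hx i N) L le_rfl, ih]

/-- folding -/
theorem fold (hL : 1 ≤ L) {f : ℕ → G} (hf : ∀ i, f i ∈ K) :
    ∃ F : ℕ → G, (∀ i, F i ∈ K) ∧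
      op L f = pr g f L * ⁅pr g (fun i => F (i + 1)) L, g⁆ := by
  refine ⟨fun j => op (L - j) (fun i => f (j + i)), fun i => op_mem K _ fun t _ => hf _, ?_⟩
  obtain ⟨F, hF⟩ : ∃ F : ℕ → G, F = fun j => op (L - j) (fun i => f (j + i)) := ⟨_, rfl⟩
  have hFK : ∀ i, F i ∈ K := fun i => by rw [hF]; exact op_mem K _ fun t _ => hf _
  have hF0 : F 0 = op L f := by
    rw [hF]
    simp
  have hFL : F L = 1 := by
    rw [hF]
    simp [op]
  have hFs : ∀ j < L, F j = f j * F (j + 1) := by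
    intro j hj
    rw [hF]
    obtain ⟨m, hm⟩ : ∃ m, L - j = m + 1 := ⟨L - j - 1, by omega⟩
    have hm' : L - (j + 1) = m := by omega
    simp only [hm, hm']
    rw [op_succ', add_zero]
    congr 1
    refine op_congr m fun i _ => ?_
    congr 1
    ring
  have e1 : pr g F L = pr g f L * pr g (fun i => F (i + 1)) L := by
    rw [← pr_mul hC hf (fun i => hFK (i + 1)) L le_rfl]
    exact op_congr L fun i hi => by
      beta_reduce
      rw [hFs i hi]
  obtain ⟨m, hm⟩ : ∃ m, L = m + 1 := ⟨L - 1, by omega⟩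
  have e2 : pr g (fun i => F (i + 1)) L = pr g (fun i => F (i + 1)) m := by
    rw [hm, pr_succ, ← hm, hFL]
    group
  have e3 : pr g F L = F 0 * (g * pr g (fun i => F (i + 1)) L * g⁻¹) := by
    rw [e2]
    conv_lhs => rw [hm]
    exact pr_shift g F m
  have e4 : F 0 = pr g f L * ⁅pr g (fun i => F (i + 1)) L, g⁆ := by
    rw [e1] at e3
    rw [commutatorElement_def]
    have e5 : F 0 = pr g f L * pr g (fun i => F (i + 1)) L *
        (g * pr g (fun i => F (i + 1)) L * g⁻¹)⁻¹ := by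
      rw [e3, mul_assoc, mul_inv_cancel, mul_one]
    rw [e5]
    group
  rw [← hF0, e4, hF]

end comm

end basic

theorem main (G : Type) [Group G] (Γ : Subgroup G) (L : ℕ) (hL : 1 ≤ L) (M : ℕ) :
    ∀ (K : ℕ → Subgroup G) (κ : ℕ → G), (∀ s ≤ M, K s ≤ Γ) → (∀ s < M, κ s ∈ Γ) →
    (∀ s < M, ∀ i < L, ∀ a ∈ K s, κ s ^ i * a * (κ s ^ i)⁻¹ ∈ K (s + 1)) →
    (∀ s < M, ∀ i < L, ∀ j < L, i ≠ j → ∀ a ∈ K s, ∀ b ∈ K s,
      Commute (κ s ^ i * a * (κ s ^ i)⁻¹) (κ s ^ j * b * (κ s ^ j)⁻¹)) →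
    ∀ a b : ℕ → G, (∀ t, a t ∈ K 0 ∧ b t ∈ K 0) →
    ∃ A B : ℕ → G, (∀ t, A t ∈ Γ ∧ B t ∈ Γ) ∧
      op (L ^ M) (fun t => ⁅a t, b t⁆) = op (M + 1) (fun t => ⁅A t, B t⁆) := by
  induction M with
  | zero =>
    intro K κ hK _ _ _ a b hab
    refine ⟨fun _ => a 0, fun _ => b 0, fun _ => ⟨hK 0 le_rfl (hab 0).1, hK 0 le_rfl (hab 0).2⟩, ?_⟩
    rfl
  | succ M ih =>
    intro K κ hK hκ hsh hC a b hab
    obtain ⟨N, hN⟩ : ∃ N, N = L ^ M := ⟨_, rfl⟩
    have hC0 := hC 0 (by omega)
    have hpow : L ^ (M + 1) = L * N := by rw [hN, pow_succ']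
    obtain ⟨f, hf⟩ : ∃ f : ℕ → G, f = fun i => op N (fun t => ⁅a (i * N + t), b (i * N + t)⁆) :=
      ⟨_, rfl⟩
    have hcm : ∀ t t', ⁅a t, b t'⁆ ∈ K 0 := fun t t' => by
      rw [commutatorElement_def]
      exact (K 0).mul_mem ((K 0).mul_mem ((K 0).mul_mem (hab t).1 (hab t').2)
        ((K 0).inv_mem (hab t).1)) ((K 0).inv_mem (hab t').2)
    have hfK : ∀ i, f i ∈ K 0 := fun i => by
      rw [hf]
      exact op_mem _ _ fun t _ => hcm _ _
    have hprK : ∀ u : ℕ → G, (∀ i, u i ∈ K 0) → pr (κ 0) u L ∈ K 1 := fun u hu =>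
      op_mem _ _ fun i hi => hsh 0 (by omega) i hi _ (hu i)
    obtain ⟨F, hFK, hF⟩ := fold hC0 hL hfK
    have e1 : pr (κ 0) f L = op N (fun t => ⁅pr (κ 0) (fun i => a (i * N + t)) L,
        pr (κ 0) (fun i => b (i * N + t)) L⁆) := by
      rw [hf, pr_op hC0 (x := fun i t => ⁅a (i * N + t), b (i * N + t)⁆) (fun i t => hcm _ _) N]
      refine op_congr N fun t _ => ?_
      exact pr_comm hC0 (fun i => (hab _).1) (fun i => (hab _).2)
    obtain ⟨A, B, hAB, hop⟩ := ih (fun s => K (s + 1)) (fun s => κ (s + 1))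
      (fun s hs => hK (s + 1) (by omega)) (fun s hs => hκ (s + 1) (by omega))
      (fun s hs => hsh (s + 1) (by omega)) (fun s hs => hC (s + 1) (by omega))
      (fun t => pr (κ 0) (fun i => a (i * N + t)) L) (fun t => pr (κ 0) (fun i => b (i * N + t)) L)
      (fun t => ⟨hprK _ fun i => (hab _).1, hprK _ fun i => (hab _).2⟩)
    refine ⟨fun t => if t < M + 1 then A t else pr (κ 0) (fun i => F (i + 1)) L,
      fun t => if t < M + 1 then B t else κ 0, fun t => ?_, ?_⟩
    · beta_reduce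
      split_ifs with h
      · exact hAB t
      · exact ⟨hK 1 (by omega) (hprK _ fun i => hFK _), hκ 0 (by omega)⟩
    · rw [hpow, op_block, op_succ]
      beta_reduce
      rw [if_neg (by omega), if_neg (by omega)]
      have e2 : op L (fun i => op N (fun t => ⁅a (i * N + t), b (i * N + t)⁆)) = op L f := by
        rw [hf]
      rw [← hN] at hop
      rw [e2, hF, e1]
      congr 1
      rw [hop]
      refine op_congr _ fun t ht => ?_
      beta_reduce
      rw [if_pos ht, if_pos ht]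

theorem t_ALG : Pool.Agent.U503.HP.S_ALG := by
  intro G _ Γ L M K κ hL hK hκ hsh hC l hl hlK
  have hd : ∀ t, (l.getD t (1, 1)).1 ∈ K 0 ∧ (l.getD t (1, 1)).2 ∈ K 0 := by
    intro t
    rcases lt_or_ge t l.length with h | h
    · rw [List.getD_eq_getElem l _ h]
      exact hlK _ (List.getElem_mem h)
    · rw [List.getD_eq_default l _ h]
      exact ⟨(K 0).one_mem, (K 0).one_mem⟩
  obtain ⟨A, B, hAB, h⟩ := main G Γ L hL M K κ hK hκ hsh hC (fun t => (l.getD t (1, 1)).1)
    (fun t => (l.getD t (1, 1)).2) hd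
  refine ⟨fun t => A t, fun t => B t, fun t => hAB t, ?_⟩
  rw [← op_list (fun x : G × G => ⁅x.1, x.2⁆) (1, 1) (by simp) l (L ^ M) hl, h, op_ofFn]

end Pool.Agent.U293.HP
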